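import Pool.Agent.Y171.CE.Stm

/-!
Project CE (helper171), part CE-CNT (helper542): the number of matrices congruent to one modulo `f`.
-/

set_option autoImplicit false

open Polynomial Matrix

namespace Pool.Agent.Y542.CE

open Pool.Agent.Y171.CE

section
variable {p : ℕ} [Fact p.Prime]

/-- polynomials of degree at most `s` -/
def BS (p s : ℕ) : Set (ZMod p)[X] := {g | g.natDegree ≤ s}

theorem bs_inj (s : ℕ) : Set.InjOn (fun (g : (ZMod p)[X]) (i : Fin (s + 1)) => g.coeff i) (BS p s) := by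
  intro g hg h hh hgh
  ext n
  by_cases hn : n ≤ s
  · exact congrFun hgh ⟨n, by omega⟩
  · have h1 : g.natDegree ≤ s := hg
    have h2 : h.natDegree ≤ s := hh
    rw [coeff_eq_zero_of_natDegree_lt (by omega), coeff_eq_zero_of_natDegree_lt (by omega)]

theorem bs_fin (s : ℕ) : (BS p s).Finite :=
  Set.Finite.of_injOn (Set.mapsTo_univ _ _) (bs_inj s) Set.finite_univ

theorem bs_card (s : ℕ) : (BS p s).ncard ≤ p ^ (s + 1) := by
  have h := Set.ncard_le_ncard_of_injOn (t := Set.univ) _ (fun a _ => Set.mem_univ _) (bs_inj (p := p) s)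
    Set.finite_univ
  rw [Set.ncard_univ, Nat.card_eq_fintype_card, Fintype.card_fun, ZMod.card, Fintype.card_fin] at h
  exact h

/-- the finset of polynomials of degree at most `s` -/
noncomputable def Bf (p : ℕ) [Fact p.Prime] (s : ℕ) : Finset (ZMod p)[X] := (bs_fin (p := p) s).toFinset

theorem mem_Bf {s : ℕ} {g : (ZMod p)[X]} : g ∈ Bf p s ↔ g.natDegree ≤ s := by
  unfold Bf
  rw [Set.Finite.mem_toFinset]
  rfl

theorem card_Bf (s : ℕ) : (Bf p s).card ≤ p ^ (s + 1) := by
  unfold Bf
  rw [← Set.ncard_eq_toFinset_card _ (bs_fin s)]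
  exact bs_card s

open Classical in
/-- factorizations with factors of degree at most `s` -/
noncomputable def Pr (p : ℕ) [Fact p.Prime] (s : ℕ) (m : (ZMod p)[X]) : Finset ((ZMod p)[X] × (ZMod p)[X]) :=
  (Bf p s ×ˢ Bf p s).filter (fun x => x.1 * x.2 = m)

theorem card_Pr_zero (s : ℕ) : (Pr p s 0).card ≤ 2 * p ^ (s + 1) := by
  classical
  have h : Pr p s 0 ⊆ ({0} ×ˢ Bf p s) ∪ (Bf p s ×ˢ {0}) := by
    intro x hx
    unfold Pr at hx
    rw [Finset.mem_filter, Finset.mem_product] at hx
    obtain ⟨⟨h1, h2⟩, h3⟩ := hx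
    rw [Finset.mem_union, Finset.mem_product, Finset.mem_product, Finset.mem_singleton, Finset.mem_singleton]
    rcases mul_eq_zero.1 h3 with h | h
    · exact Or.inl ⟨h, h2⟩
    · exact Or.inr ⟨h1, h⟩
  refine (Finset.card_le_card h).trans ((Finset.card_union_le _ _).trans ?_)
  rw [Finset.card_product, Finset.card_product, Finset.card_singleton, one_mul, mul_one]
  have := card_Bf (p := p) s
  omega

theorem card_Pr (hD : S_NDIV) (s : ℕ) {m : (ZMod p)[X]} (hm : m ≠ 0) : (Pr p s m).card ≤ p * 4 ^ s := by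
  classical
  rcases (Pr p s m).eq_empty_or_nonempty with h0 | ⟨x, hx⟩
  · rw [h0, Finset.card_empty]
    exact Nat.zero_le _
  · have hx' := hx
    unfold Pr at hx'
    rw [Finset.mem_filter, Finset.mem_product, mem_Bf, mem_Bf] at hx'
    obtain ⟨⟨h1, h2⟩, h3⟩ := hx'
    have h4 : x.1 ≠ 0 := by
      intro h
      rw [h, zero_mul] at h3
      exact hm h3.symm
    have h5 : x.2 ≠ 0 := by
      intro h
      rw [h, mul_zero] at h3
      exact hm h3.symm
    have h6 : m.natDegree ≤ 2 * s := by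
      rw [← h3, natDegree_mul h4 h5]
      omega
    obtain ⟨g1, g2⟩ := hD p m hm
    have h7 : (Pr p s m).card ≤ {d : (ZMod p)[X] | d ∣ m}.ncard := by
      rw [← Set.ncard_coe_finset]
      refine Set.ncard_le_ncard_of_injOn (fun x => x.1) ?_ ?_ g1
      · intro y hy
        rw [Finset.mem_coe] at hy
        unfold Pr at hy
        rw [Finset.mem_filter] at hy
        exact ⟨y.2, hy.2.symm⟩
      · intro y hy z hz hyz
        rw [Finset.mem_coe] at hy hz
        unfold Pr at hy hz
        rw [Finset.mem_filter] at hy hz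
        have e1 : y.1 = z.1 := hyz
        have e2 : y.1 ≠ 0 := by
          intro h
          rw [h, zero_mul] at hy
          exact hm hy.2.symm
        refine Prod.ext e1 (mul_left_cancel₀ e2 ?_)
        rw [hy.2, e1, hz.2]
    refine h7.trans (g2.trans ?_)
    refine Nat.mul_le_mul_left _ ?_
    calc 2 ^ m.natDegree ≤ 2 ^ (2 * s) := Nat.pow_le_pow_right (by norm_num) h6
      _ = 4 ^ s := by rw [pow_mul]; norm_num

/-- the product `b c` as a function of `e` and `a` -/
noncomputable def mm (f e a : (ZMod p)[X]) : (ZMod p)[X] := a * (- f * e - a) - e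

open Classical in
theorem card_zero (f e : (ZMod p)[X]) (s : ℕ) : ((Bf p s).filter (fun a => mm f e a = 0)).card ≤ 2 := by
  rcases ((Bf p s).filter (fun a => mm f e a = 0)).eq_empty_or_nonempty with h0 | ⟨x, hx⟩
  · rw [h0, Finset.card_empty]
    norm_num
  · have h1 : (Bf p s).filter (fun a => mm f e a = 0) ⊆ {x, - f * e - x} := by
      intro y hy
      rw [Finset.mem_filter] at hx hy
      have e1 := hx.2
      have e2 := hy.2
      unfold mm at e1 e2
      have e3 : (y - x) * (y - (- f * e - x)) = 0 := by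
        linear_combination e1 - e2
      rw [Finset.mem_insert, Finset.mem_singleton]
      rcases mul_eq_zero.1 e3 with h | h
      · exact Or.inl (sub_eq_zero.1 h)
      · exact Or.inr (sub_eq_zero.1 h)
    exact (Finset.card_le_card h1).trans (Finset.card_le_two)

open Classical in
/-- the possible values of `e` -/
noncomputable def Es (p : ℕ) [Fact p.Prime] (k r : ℕ) : Finset (ZMod p)[X] :=
  if 2 * k ≤ r then Bf p (r - 2 * k) else {0}

open Classical in
/-- the codes of the matrices -/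
noncomputable def Tot (p : ℕ) [Fact p.Prime] (f : (ZMod p)[X]) (k r : ℕ) :
    Finset (((ZMod p)[X] × (ZMod p)[X]) × ((ZMod p)[X] × (ZMod p)[X])) :=
  (Es p k r ×ˢ Bf p (r - k)).biUnion fun x => {x} ×ˢ Pr p (r - k) (mm f x.1 x.2)

theorem card_fix (hD : S_NDIV) (f e : (ZMod p)[X]) (s : ℕ) :
    ∑ a ∈ Bf p s, (Pr p s (mm f e a)).card ≤ 3 * p ^ (s + 2) * 4 ^ s := by
  classical
  have h1 : ∀ a ∈ Bf p s, (Pr p s (mm f e a)).card ≤ p * 4 ^ s + if mm f e a = 0 then 2 * p ^ (s + 1) else 0 := by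
    intro a _
    split_ifs with h
    · rw [h]
      exact (card_Pr_zero s).trans (Nat.le_add_left _ _)
    · exact card_Pr hD s h
  refine (Finset.sum_le_sum h1).trans ?_
  rw [Finset.sum_add_distrib, Finset.sum_const, smul_eq_mul, ← Finset.sum_filter, Finset.sum_const, smul_eq_mul]
  have h2 := card_Bf (p := p) s
  have h3 := card_zero f e s
  have hp : 2 ≤ p := (Fact.out : p.Prime).two_le
  have h4 : 1 ≤ 4 ^ s := Nat.one_le_pow _ _ (by norm_num)
  calc (Bf p s).card * (p * 4 ^ s) + ((Bf p s).filter (fun a => mm f e a = 0)).card * (2 * p ^ (s + 1))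
      ≤ p ^ (s + 1) * (p * 4 ^ s) + 2 * (2 * p ^ (s + 1)) :=
        Nat.add_le_add (Nat.mul_le_mul_right _ h2) (Nat.mul_le_mul_right _ h3)
    _ = p ^ (s + 1) * (p * 4 ^ s + 2 * 2) := by ring
    _ ≤ p ^ (s + 1) * (p * 4 ^ s + 2 * (p * 4 ^ s)) := by
        refine Nat.mul_le_mul_left _ (Nat.add_le_add_left (Nat.mul_le_mul_left _ ?_) _)
        nlinarith
    _ = 3 * p ^ (s + 2) * 4 ^ s := by ring

theorem card_Tot (hD : S_NDIV) (f : (ZMod p)[X]) (k r : ℕ) :
    (Tot p f k r).card ≤ (Es p k r).card * (3 * p ^ (r - k + 2) * 4 ^ (r - k)) := by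
  classical
  unfold Tot
  refine Finset.card_biUnion_le.trans ?_
  rw [Finset.sum_product]
  have h1 : ∀ e ∈ Es p k r, ∑ a ∈ Bf p (r - k), (({(e, a)} : Finset ((ZMod p)[X] × (ZMod p)[X])) ×ˢ
      Pr p (r - k) (mm f e a)).card ≤ 3 * p ^ (r - k + 2) * 4 ^ (r - k) := by
    intro e _
    refine le_trans (le_of_eq ?_) (card_fix hD f e (r - k))
    refine Finset.sum_congr rfl fun a _ => ?_
    rw [Finset.card_product, Finset.card_singleton, one_mul]
  refine (Finset.sum_le_sum h1).trans ?_
  rw [Finset.sum_const, smul_eq_mul]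

/-- The code of a matrix. -/
noncomputable def cod (f : (ZMod p)[X]) (γ : SL2 (ZMod p)[X]) :
    ((ZMod p)[X] × (ZMod p)[X]) × ((ZMod p)[X] × (ZMod p)[X]) :=
  (((γ.1 0 0 - 1) / f * ((γ.1 1 1 - 1) / f) - γ.1 0 1 / f * (γ.1 1 0 / f), (γ.1 0 0 - 1) / f),
    (γ.1 0 1 / f, γ.1 1 0 / f))

structure Dat (f : (ZMod p)[X]) (γ : SL2 (ZMod p)[X]) (r : ℕ) (a b c d : (ZMod p)[X]) : Prop where
  ha : γ.1 0 0 = 1 + f * a
  hb : γ.1 0 1 = f * b
  hc : γ.1 1 0 = f * c
  hd : γ.1 1 1 = 1 + f * d
  da : (f * a).natDegree ≤ r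
  db : (f * b).natDegree ≤ r
  dc : (f * c).natDegree ≤ r
  dd : (f * d).natDegree ≤ r

theorem dat {f : (ZMod p)[X]} (hf : f ≠ 0) {r : ℕ} {γ : SL2 (ZMod p)[X]} (h : γ ∈ cng f r) :
    Dat f γ r ((γ.1 0 0 - 1) / f) (γ.1 0 1 / f) (γ.1 1 0 / f) ((γ.1 1 1 - 1) / f) := by
  obtain ⟨h1, h2⟩ := h
  have h3 : ∀ i j : Fin 2, (γ.1 i j).natDegree ≤ r := by
    intro i j
    refine le_trans ?_ h1
    unfold dg
    exact (Finset.le_sup (f := fun j : Fin 2 => (γ.1 i j).natDegree) (Finset.mem_univ j)).trans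
      (Finset.le_sup (f := fun i : Fin 2 => Finset.univ.sup (fun j : Fin 2 => (γ.1 i j).natDegree))
        (Finset.mem_univ i))
  have g1 : f ∣ γ.1 0 0 - 1 := by simpa using h2 0 0
  have g2 : f ∣ γ.1 0 1 := by simpa using h2 0 1
  have g3 : f ∣ γ.1 1 0 := by simpa using h2 1 0
  have g4 : f ∣ γ.1 1 1 - 1 := by simpa using h2 1 1
  have e1 := EuclideanDomain.mul_div_cancel' hf g1
  have e2 := EuclideanDomain.mul_div_cancel' hf g2
  have e3 := EuclideanDomain.mul_div_cancel' hf g3
  have e4 := EuclideanDomain.mul_div_cancel' hf g4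
  have d1 : ∀ g : (ZMod p)[X], g.natDegree ≤ r → (g - 1).natDegree ≤ r := by
    intro g hg
    refine (natDegree_sub_le _ _).trans ?_
    rw [natDegree_one]
    exact max_le hg (Nat.zero_le _)
  refine ⟨?_, ?_, ?_, ?_, ?_, ?_, ?_, ?_⟩
  · rw [e1]; ring
  · rw [e2]
  · rw [e3]
  · rw [e4]; ring
  · rw [e1]; exact d1 _ (h3 0 0)
  · rw [e2]; exact h3 0 1
  · rw [e3]; exact h3 1 0
  · rw [e4]; exact d1 _ (h3 1 1)

theorem Dat.det {f : (ZMod p)[X]} (hf : f ≠ 0) {r : ℕ} {γ : SL2 (ZMod p)[X]} {a b c d : (ZMod p)[X]}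
    (h : Dat f γ r a b c d) : a + d = - f * (a * d - b * c) := by
  have h1 : γ.1 0 0 * γ.1 1 1 - γ.1 0 1 * γ.1 1 0 = 1 := by
    rw [← Matrix.det_fin_two]
    exact γ.2
  rw [h.ha, h.hb, h.hc, h.hd] at h1
  refine mul_left_cancel₀ hf ?_
  linear_combination h1

theorem deg_small {f a : (ZMod p)[X]} {k r : ℕ} (hf : f ≠ 0) (hk : f.natDegree = k)
    (h : (f * a).natDegree ≤ r) : a = 0 ∨ (k ≤ r ∧ a.natDegree ≤ r - k) := by
  by_cases ha : a = 0
  · exact Or.inl ha
  · rw [natDegree_mul hf ha, hk] at h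
    exact Or.inr ⟨by omega, by omega⟩

theorem deg_small' {f a : (ZMod p)[X]} {k r : ℕ} (hf : f ≠ 0) (hk : f.natDegree = k)
    (h : (f * a).natDegree ≤ r) : a ∈ Bf p (r - k) := by
  rw [mem_Bf]
  rcases deg_small hf hk h with h | h
  · rw [h, natDegree_zero]; exact Nat.zero_le _
  · exact h.2

theorem cnt (hD : S_NDIV) : S_CNT := by
  intro p _ f k hk hk1 r
  have hf : f ≠ 0 := by
    rintro rfl
    rw [natDegree_zero] at hk
    omega
  refine ⟨fun hr γ hγ => ?_, fun hr => ?_⟩
  · have h := dat hf hγ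
    have h0 : ∀ a : (ZMod p)[X], (f * a).natDegree ≤ r → a = 0 := by
      intro a ha
      rcases deg_small hf hk ha with h | h
      · exact h
      · exact absurd h.1 (by omega)
    have e1 := h.ha
    have e2 := h.hb
    have e3 := h.hc
    have e4 := h.hd
    rw [h0 _ h.da, mul_zero, add_zero] at e1
    rw [h0 _ h.db, mul_zero] at e2
    rw [h0 _ h.dc, mul_zero] at e3
    rw [h0 _ h.dd, mul_zero, add_zero] at e4
    ext i j
    fin_cases i <;> fin_cases j
    · simpa using congrArg (fun q : (ZMod p)[X] => q.coeff _) e1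
    · simpa using congrArg (fun q : (ZMod p)[X] => q.coeff _) e2
    · simpa using congrArg (fun q : (ZMod p)[X] => q.coeff _) e3
    · simpa using congrArg (fun q : (ZMod p)[X] => q.coeff _) e4
  · have hmaps : Set.MapsTo (cod f) (cng f r) (Tot p f k r : Set _) := by
      classical
      intro γ hγ
      have h := dat hf hγ
      have hdet := h.det hf
      rw [Finset.mem_coe]
      unfold Tot cod
      rw [Finset.mem_biUnion]
      set a := (γ.1 0 0 - 1) / f
      set b := γ.1 0 1 / f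
      set c := γ.1 1 0 / f
      set d := (γ.1 1 1 - 1) / f
      have ha := deg_small' hf hk h.da
      have hb := deg_small' hf hk h.db
      have hc := deg_small' hf hk h.dc
      have hd := deg_small' hf hk h.dd
      refine ⟨(a * d - b * c, a), ?_, ?_⟩
      · rw [Finset.mem_product]
        refine ⟨?_, ha⟩
        have h1 : (f * (a * d - b * c)).natDegree ≤ r - k := by
          have : f * (a * d - b * c) = -(a + d) := by rw [hdet]; ring
          rw [this, natDegree_neg]
          rw [mem_Bf] at ha hd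
          exact (natDegree_add_le _ _).trans (max_le ha hd)
        unfold Es
        rcases deg_small hf hk h1 with h2 | ⟨h2, h3⟩
        · show a * d - b * c ∈ _
          rw [h2]
          split_ifs
          · rw [mem_Bf, natDegree_zero]; exact Nat.zero_le _
          · exact Finset.mem_singleton_self _
        · rw [if_pos (by omega)]
          rw [mem_Bf]
          show (a * d - b * c).natDegree ≤ _
          omega
      · rw [Finset.mem_product]
        refine ⟨Finset.mem_singleton_self _, ?_⟩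
        unfold Pr
        rw [Finset.mem_filter, Finset.mem_product]
        refine ⟨⟨hb, hc⟩, ?_⟩
        show b * c = mm f (a * d - b * c) a
        unfold mm
        have : - f * (a * d - b * c) - a = d := by rw [← hdet]; ring
        rw [this]
        ring
    have hinj : Set.InjOn (cod f) (cng f r) := by
      intro γ hγ δ hδ hgd
      have h := dat hf hγ
      have h' := dat hf hδ
      have d1 := h.det hf
      have d2 := h'.det hf
      unfold cod at hgd
      rw [Prod.mk.injEq, Prod.mk.injEq, Prod.mk.injEq] at hgd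
      obtain ⟨⟨i1, i2⟩, i3, i4⟩ := hgd
      rw [i1, i2] at d1
      have i5 : (γ.1 1 1 - 1) / f = (δ.1 1 1 - 1) / f := by
        exact add_left_cancel (d1.trans d2.symm)
      have e1 : γ.1 0 0 = δ.1 0 0 := by rw [h.ha, h'.ha, i2]
      have e2 : γ.1 0 1 = δ.1 0 1 := by rw [h.hb, h'.hb, i3]
      have e3 : γ.1 1 0 = δ.1 1 0 := by rw [h.hc, h'.hc, i4]
      have e4 : γ.1 1 1 = δ.1 1 1 := by rw [h.hd, h'.hd, i5]
      refine Subtype.ext (Matrix.ext fun i j => ?_)
      fin_cases i <;> fin_cases j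
      · exact e1
      · exact e2
      · exact e3
      · exact e4
    refine ⟨Set.Finite.of_injOn hmaps hinj (Finset.finite_toSet _), ?_⟩
    have h1 : (cng f r).ncard ≤ (Tot p f k r).card := by
      rw [← Set.ncard_coe_finset]
      exact Set.ncard_le_ncard_of_injOn _ hmaps hinj (Finset.finite_toSet _)
    have h2 := h1.trans (card_Tot hD f k r)
    have hp : 2 ≤ p := (Fact.out : p.Prime).two_le
    have h44 : 4 ^ (r - k) ≤ 4 ^ r := Nat.pow_le_pow_right (by norm_num) (Nat.sub_le _ _)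
    by_cases h2k : 2 * k ≤ r
    · have h3 : (Es p k r).card ≤ p ^ (r - 2 * k + 1) := by
        unfold Es
        rw [if_pos h2k]
        exact card_Bf _
      calc (cng f r).ncard * p ^ (3 * k)
          ≤ (p ^ (r - 2 * k + 1) * (3 * p ^ (r - k + 2) * 4 ^ (r - k))) * p ^ (3 * k) :=
            Nat.mul_le_mul_right _ (h2.trans (Nat.mul_le_mul_right _ h3))
        _ = 3 * 4 ^ (r - k) * (p ^ (r - 2 * k + 1) * p ^ (r - k + 2) * p ^ (3 * k)) := by ring
        _ = 3 * 4 ^ (r - k) * (p ^ 3 * p ^ (2 * r)) := by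
            rw [← pow_add, ← pow_add, ← pow_add]
            congr 2
            omega
        _ ≤ 8 * 4 ^ r * (p ^ 3 * (p ^ (r + 2 * k) + p ^ (2 * r))) := by
            refine Nat.mul_le_mul (Nat.mul_le_mul (by norm_num) h44) (Nat.mul_le_mul_left _ (Nat.le_add_left _ _))
        _ = 8 * 4 ^ r * p ^ 3 * (p ^ (r + 2 * k) + p ^ (2 * r)) := by ring
    · have h3 : (Es p k r).card = 1 := by
        unfold Es
        rw [if_neg h2k]
        exact Finset.card_singleton _
      rw [h3, one_mul] at h2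
      calc (cng f r).ncard * p ^ (3 * k)
          ≤ (3 * p ^ (r - k + 2) * 4 ^ (r - k)) * p ^ (3 * k) := Nat.mul_le_mul_right _ h2
        _ = 3 * 4 ^ (r - k) * (p ^ (r - k + 2) * p ^ (3 * k)) := by ring
        _ = 3 * 4 ^ (r - k) * (p ^ 2 * p ^ (r + 2 * k)) := by
            rw [← pow_add, ← pow_add]
            congr 2
            omega
        _ ≤ 8 * 4 ^ r * (p ^ 3 * (p ^ (r + 2 * k) + p ^ (2 * r))) := by
            refine Nat.mul_le_mul (Nat.mul_le_mul (by norm_num) h44)
              (Nat.mul_le_mul (Nat.pow_le_pow_right (by omega) (by norm_num)) (Nat.le_add_right _ _))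
        _ = 8 * 4 ^ r * p ^ 3 * (p ^ (r + 2 * k) + p ^ (2 * r)) := by ring

end

end Pool.Agent.Y542.CE
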